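import Mathlib
import Pool.Agent.N551.ZE.Stm

/-!
# Project ZF: the ratio 5

`w t` is the arithmetic mean of `w (t-1)`, `w (t-5)` for even `t` and the harmonic mean for odd `t`.
`T` is the map `(w (t-5), ..., w (t-1)) ↦ (w (t-3), ..., w (t+1))`, `t` odd.
-/

open Filter Topology Set
open Pool.Agent.N420.BS (basin sol)
open Pool.Agent.N551.ZE

namespace Pool.Agent.N551.ZF

noncomputable section

def H (x y : ℝ) : ℝ := 2 * x * y / (x + y)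

def T (u : Fin 5 → ℝ) : Fin 5 → ℝ := ![u 2, u 3, u 4, H (u 4) (u 0), (H (u 4) (u 0) + u 1) / 2]

structure GoodM (M : (Fin 5 → ℝ) → ℝ) : Prop where
  lowb : ∀ u A, (∀ i, 0 < u i) → (∀ i, A ≤ u i) → A ≤ M u
  upb : ∀ u B, (∀ i, 0 < u i) → (∀ i, u i ≤ B) → M u ≤ B
  mono : ∀ u u', (∀ i, 0 < u i) → (∀ i, u i ≤ u' i) → M u ≤ M u'
  hom : ∀ u c, (∀ i, 0 < u i) → 0 < c → M (fun i => c * u i) = c * M u
  inv : ∀ u, (∀ i, 0 < u i) → M (T u) = M u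
  mem : ∀ v : ℕ → ℝ, (∀ t, 0 < v t) → ∃ x ∈ basin 0 4, ∀ i : Fin (max 0 4 + 1),
    x i = if (i : ℕ) % 2 = 0 then Real.sqrt 2 * v i / M (fun j : Fin 5 => v j)
      else Real.sqrt 2 * M (fun j : Fin 5 => v j) / v i

/-- EX: `M u` is the limit of `T^[n] u`, or of the sequence `w` with `w t = u t` for `t < 5` and
`Rec 1 5 w`. See `Pool/Agent/N551/ZE/MEM.lean` (the same for pairs with `n ≥ 3`),
`Pool.Agent.N420.BS.Osc.osc_tendsto`, `Pool/Agent/N551/ZD/LIM1.lean`. -/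
def S_EX : Prop := ∃ M, GoodM M

/-- The state with the factor `h` at the places 0, 1, 2. -/
def sh (h : ℝ) : Fin 5 → ℝ := ![h, h, h / 2, 2, 2]

/-- ASY1: `T (T (T (sh h)))` lies between `(1 - 10 / h) * 2 * sh (h / 4)` and
`(1 + 10 / h) * 2 * sh (h / 4)` in every entry (numerically `-8 / h` to `6 / h`). -/
def S_ASY1 : Prop := ∀ M, GoodM M → ∀ h : ℝ, 16 ≤ h →
  (1 - 10 / h) * (2 * M (sh (h / 4))) ≤ M (sh h) ∧ M (sh h) ≤ (1 + 10 / h) * (2 * M (sh (h / 4)))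

/-- ASY2: `T^[6]` of the state is `κ * sh (δ h)` up to factors `1 ± C / h` in every entry, with
`κ = 2 v 4`, `δ = η / (4 v 4)`, `η = 2 v 1 v 2 / (v 1 + 2 v 2)`: (`w 5 ≈ 2 v 4`, `w 6 ≈ v 1 h / 2`,
`w 7 ≈ η h`, `w 8 ≈ η h / 2`, `w 9 ≈ 2 v 4`, `w 10 ≈ 2 v 4`, `w 11 ≈ 4 v 4`, `w 12 ≈ η h / 2`,
`w 13 ≈ η h / 2`, `w 14 ≈ η h / 4`, `w 15 ≈ 4 v 4`, `w 16 ≈ 4 v 4`). -/
def S_ASY2 : Prop := ∀ M, GoodM M → ∀ v : Fin 5 → ℝ, (∀ i, 0 < v i) →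
  ∃ κ δ C h₁ : ℝ, 0 < κ ∧ 0 < δ ∧ 0 < C ∧ 0 < h₁ ∧ ∀ h, h₁ ≤ h →
    (1 - C / h) * (κ * M (sh (δ * h))) ≤ M ![v 0 * h, v 1 * h, v 2 * h, v 3, v 4] ∧
    M ![v 0 * h, v 1 * h, v 2 * h, v 3, v 4] ≤ (1 + C / h) * (κ * M (sh (δ * h)))

/-- The limit function. -/
structure Phi (M : (Fin 5 → ℝ) → ℝ) (Φ : ℝ → ℝ) : Prop where
  pos : ∀ x, 0 < x → 0 < Φ x
  lim : ∀ x, 0 < x → Tendsto (fun s : ℕ => M (sh (4 ^ s * x)) / 2 ^ s) atTop (𝓝 (Φ x))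
  cont : ContinuousOn Φ (Ioi 0)
  err : ∀ (s : ℕ) (x : ℝ), 0 < x → 16 ≤ 4 ^ s * x →
    (1 - 7 / (4 ^ s * x)) * (M (sh (4 ^ s * x)) / 2 ^ s) ≤ Φ x ∧
    Φ x ≤ (1 + 7 / (4 ^ s * x)) * (M (sh (4 ^ s * x)) / 2 ^ s)

/-- PHI: by ASY1 the sequence changes from `r - 1` to `r` by a factor between `1 ± 10 / (4 ^ r x)`;
the product of these factors over `r > s` lies between `1 ± 7 / (4 ^ s x)` (sum of the `10 / (4^r x)`
is `(10 / 3) / (4 ^ s x)`; `exp t ≤ 1 + 2 t` for `0 ≤ t ≤ 1`). Continuity: for `x ≤ x'`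
`sh x ≤ sh x' ≤ (x' / x) sh x`. -/
def S_PHI : Prop := S_ASY1 → ∀ M, GoodM M → ∃ Φ, Phi M Φ

/-- CERT: numerical bounds (relative precision `10⁻⁷` is enough), `h = 4 ^ 13 * (3/2)` and
`4 ^ 13 * (5/2)`: iterate `T` on natural numbers (scaled states) with rounding down (up), compare by
`mono`, `inv`, `lowb`, `upb`; evaluate with `decide +kernel` (about 300 iterations). Numerically
`M (sh (4 ^ s x)) / 2 ^ s / √x` is `1.18920838` for `x = 3/2` and `1.18920573` for `x = 5/2`. -/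
def S_CERT : Prop := ∀ M, GoodM M →
  (1.4564765 : ℝ) * 2 ^ 13 ≤ M (sh (4 ^ 13 * (3 / 2))) ∧
  M (sh (4 ^ 13 * (5 / 2))) ≤ (1.880300 : ℝ) * 2 ^ 13

/-- NC: not constant. -/
def S_NC : Prop := S_CERT → ∀ M, GoodM M → ∀ Φ, Phi M Φ → Φ (3 / 2) ^ 2 / (3 / 2) ≠ Φ (5 / 2) ^ 2 / (5 / 2)

/-- ALG: take `v`, `F`, `c` from `ZE.S_LAUR` with `q = max 0 4 + 1` and `D t : t ≤ 2`; by `mem`
`∑ c_x h^α Y(h)^β = 0` for all `h > 0`, `Y h = M (v 0 h, v 1 h, v 2 h, v 3, v 4)`. With `h = 4^s h₀`: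
`Y / 2^s → Ψ h₀ = κ Φ (δ h₀)` (ASY2, `lim`). Let `d` be the largest `2 α + β` with `c_x ≠ 0`; divide by
`2^(s d)`, `s → ∞`: `∑_{2α+β=d} c_x h₀^α Ψ^β = 0`, i.e. `∑ c_x (h₀ / Ψ²)^α = 0` for all `h₀ > 0`;
`h₀ / Ψ (h₀)²` is continuous and not constant (NC), so takes infinitely many values, and the Laurent
polynomial is zero. -/
def S_ALG : Prop := S_LAUR → S_ASY2 → ∀ M, GoodM M → ∀ Φ, Phi M Φ →
  Φ (3 / 2) ^ 2 / (3 / 2) ≠ Φ (5 / 2) ^ 2 / (5 / 2) →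
  ∀ P : MvPolynomial (Fin (max 0 4 + 1)) ℝ,
    (∀ v ∈ basin 0 4, MvPolynomial.eval v P = 0) → P = 0

/-- The result for all pairs. -/
def S_ALL : Prop := ∀ k l : ℕ, k < l → padicValNat 2 (k + 1) = padicValNat 2 (l + 1) →
  (∀ P : MvPolynomial (Fin (max k l + 1)) ℝ,
    (∀ v ∈ basin k l, MvPolynomial.eval v P = 0) → P = 0) ∧ ¬ ZD.SemiAlg (basin k l)

theorem final (h1 : S_EX) (h2 : S_ASY1) (h3 : S_ASY2) (h4 : S_PHI) (h5 : S_CERT) (h6 : S_NC)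
    (h7 : S_ALG) (l : S_LAUR) (r : S_RES) (g : S_PRODG) (se : S_SEMI) : S_ALL := by
  intro k l' hkl hv
  by_cases h : l' + 1 = 5 * (k + 1)
  · obtain ⟨M, hM⟩ := h1
    obtain ⟨Φ, hΦ⟩ := h4 h2 M hM
    have h04 := h7 l h3 M hM Φ hΦ (h6 h5 M hM Φ hΦ)
    have hz := g 1 5 (by norm_num) (by norm_num) h04 (k + 1) k l' (Nat.succ_pos k) (by omega)
      (by omega)
    exact ⟨hz, se k l' hv hz⟩
  · exact r k l' hkl hv h

end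

end Pool.Agent.N551.ZF
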