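import Mathlib
import Pool.Agent.N551.ZF.Stm

/-!
# Project ZF, leaf ALG: algebra of the limit relation
-/

open Filter Topology Set
open Pool.Agent.N420.BS (basin sol)
open Pool.Agent.N551.ZE

namespace Pool.Agent.N551.ZF

namespace ALG_

theorem laurent (G : Finset (ℤ × ℤ)) (c : ℤ × ℤ → ℝ) (d : ℤ)
    (hG : ∀ x ∈ G, 2 * x.1 + x.2 = d)
    (Z : Set ℝ) (hZ : Z.Infinite) (hpos : ∀ z ∈ Z, 0 < z)
    (h0 : ∀ z ∈ Z, ∑ x ∈ G, c x * z ^ x.1 = 0) : ∀ x ∈ G, c x = 0 := by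
  intro x₀ hx₀
  obtain ⟨N, hN⟩ : ∃ N : ℕ, ∀ x ∈ G, 0 ≤ x.1 + (N : ℤ) := by
    refine ⟨∑ x ∈ G, x.1.natAbs, fun x hx => ?_⟩
    have h1 : x.1.natAbs ≤ ∑ x ∈ G, x.1.natAbs :=
      Finset.single_le_sum (f := fun x : ℤ × ℤ => x.1.natAbs) (fun _ _ => Nat.zero_le _) hx
    omega
  obtain ⟨p, hp⟩ : ∃ p : Polynomial ℝ, p =
    ∑ x ∈ G, Polynomial.C (c x) * Polynomial.X ^ (x.1 + (N : ℤ)).toNat := ⟨_, rfl⟩
  have hpz : p = 0 := by
    apply Polynomial.eq_zero_of_infinite_isRoot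
    apply hZ.mono
    intro z hz
    show p.eval z = 0
    have hz0 : z ≠ 0 := (hpos z hz).ne'
    have h1 : p.eval z = z ^ (N : ℤ) * ∑ x ∈ G, c x * z ^ x.1 := by
      rw [hp, Polynomial.eval_finsetSum, Finset.mul_sum]
      refine Finset.sum_congr rfl fun x hx => ?_
      rw [Polynomial.eval_mul, Polynomial.eval_C, Polynomial.eval_pow, Polynomial.eval_X]
      have h2 : z ^ (x.1 + (N : ℤ)).toNat = z ^ (x.1 + (N : ℤ)) := by
        rw [← zpow_natCast, Int.toNat_of_nonneg (hN x hx)]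
      rw [h2, zpow_add₀ hz0]; ring
    rw [h1, h0 z hz, mul_zero]
  have h3 : p.coeff (x₀.1 + (N : ℤ)).toNat = c x₀ := by
    rw [hp, Polynomial.finsetSum_coeff, Finset.sum_eq_single x₀]
    · rw [Polynomial.coeff_C_mul, Polynomial.coeff_X_pow, if_pos rfl, mul_one]
    · intro x hx hne
      rw [Polynomial.coeff_C_mul, Polynomial.coeff_X_pow, if_neg, mul_zero]
      intro he
      apply hne
      have h4 := hN x hx
      have h5 := hN x₀ hx₀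
      have h6 := hG x hx
      have h7 := hG x₀ hx₀
      refine Prod.ext ?_ ?_ <;> omega
    · intro h; exact absurd hx₀ h
  rw [← h3, hpz, Polynomial.coeff_zero]

theorem lim_sum (F : Finset (ℤ × ℤ)) (c : ℤ × ℤ → ℝ) (d : ℤ)
    (hd : ∀ x ∈ F, c x ≠ 0 → 2 * x.1 + x.2 ≤ d) (h₀ Ψ : ℝ) (hh : 0 < h₀) (hΨ : 0 < Ψ) (Y : ℕ → ℝ)
    (hlim : Tendsto (fun s => Y s / 2 ^ s) atTop (𝓝 Ψ))
    (h0 : ∀ s, ∑ x ∈ F, c x * (4 ^ s * h₀) ^ x.1 * Y s ^ x.2 = 0) :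
    ∑ x ∈ F.filter (fun x => c x ≠ 0 ∧ 2 * x.1 + x.2 = d), c x * (h₀ / Ψ ^ 2) ^ x.1 = 0 := by
  have hT : ∀ x ∈ F, Tendsto (fun s : ℕ => c x * h₀ ^ x.1 * (Y s / 2 ^ s) ^ x.2 *
      ((2 : ℝ) ^ s) ^ (2 * x.1 + x.2 - d)) atTop
      (𝓝 (if c x ≠ 0 ∧ 2 * x.1 + x.2 = d then c x * h₀ ^ x.1 * Ψ ^ x.2 else 0)) := by
    intro x hx
    by_cases hc : c x = 0
    · simp [hc]
    have h1 : Tendsto (fun s : ℕ => c x * h₀ ^ x.1 * (Y s / 2 ^ s) ^ x.2) atTop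
        (𝓝 (c x * h₀ ^ x.1 * Ψ ^ x.2)) :=
      (Filter.Tendsto.zpow₀ hlim x.2 (Or.inl hΨ.ne')).const_mul _
    by_cases he : 2 * x.1 + x.2 = d
    · rw [if_pos ⟨hc, he⟩]
      refine h1.congr fun s => ?_
      rw [he, sub_self, zpow_zero, mul_one]
    · rw [if_neg (fun h => he h.2)]
      have h2 : 2 * x.1 + x.2 - d < 0 := by
        have := hd x hx hc
        omega
      have h3 : Tendsto (fun s : ℕ => ((2 : ℝ) ^ s) ^ (2 * x.1 + x.2 - d)) atTop (𝓝 0) :=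
        (tendsto_zpow_atTop_zero h2).comp (tendsto_pow_atTop_atTop_of_one_lt one_lt_two)
      have := h1.mul h3
      rwa [mul_zero] at this
  have h1 := tendsto_finsetSum F hT
  have h2 : ∀ s : ℕ, ∑ x ∈ F, c x * h₀ ^ x.1 * (Y s / 2 ^ s) ^ x.2 *
      ((2 : ℝ) ^ s) ^ (2 * x.1 + x.2 - d) = 0 := by
    intro s
    have h3 : ∑ x ∈ F, c x * h₀ ^ x.1 * (Y s / 2 ^ s) ^ x.2 *
        ((2 : ℝ) ^ s) ^ (2 * x.1 + x.2 - d) = ((2 : ℝ) ^ s) ^ (-d) *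
        ∑ x ∈ F, c x * (4 ^ s * h₀) ^ x.1 * Y s ^ x.2 := by
      rw [Finset.mul_sum]
      refine Finset.sum_congr rfl fun x _ => ?_
      have hp : ((2 : ℝ) ^ s) ≠ 0 := by positivity
      have h4 : (4 : ℝ) ^ s = ((2 : ℝ) ^ s) ^ (2 : ℤ) := by
        rw [show (4 : ℝ) = 2 ^ 2 by norm_num]
        rw [← pow_mul, mul_comm 2 s, pow_mul]; norm_cast
      rw [h4, mul_zpow, div_zpow, ← zpow_mul, sub_eq_add_neg, zpow_add₀ hp, zpow_add₀ hp]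
      field_simp
    rw [h3, h0 s, mul_zero]
  have h3 : ∑ x ∈ F, (if c x ≠ 0 ∧ 2 * x.1 + x.2 = d then c x * h₀ ^ x.1 * Ψ ^ x.2 else 0) = 0 := by
    refine tendsto_nhds_unique h1 ?_
    simp only [h2]
    exact tendsto_const_nhds
  rw [← Finset.sum_filter] at h3
  have h4 : ∑ x ∈ F.filter (fun x => c x ≠ 0 ∧ 2 * x.1 + x.2 = d), c x * (h₀ / Ψ ^ 2) ^ x.1 =
      Ψ ^ (-d) * ∑ x ∈ F.filter (fun x => c x ≠ 0 ∧ 2 * x.1 + x.2 = d),
        c x * h₀ ^ x.1 * Ψ ^ x.2 := by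
    rw [Finset.mul_sum]
    refine Finset.sum_congr rfl fun x hx => ?_
    have he := (Finset.mem_filter.mp hx).2.2
    have h5 : x.2 = d - 2 * x.1 := by omega
    rw [h5, div_zpow, sub_eq_add_neg, zpow_add₀ hΨ.ne', zpow_neg, zpow_neg,
      show (Ψ ^ 2) ^ x.1 = Ψ ^ (2 * x.1) by rw [zpow_mul]; norm_cast]
    have h6 : Ψ ^ d ≠ 0 := zpow_ne_zero _ hΨ.ne'
    have h7 : Ψ ^ (2 * x.1) ≠ 0 := zpow_ne_zero _ hΨ.ne'
    field_simp
  rw [h4, h3, mul_zero]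

end ALG_

open ALG_ in
theorem t_ALG : S_ALG := by
  intro hL hA M hM Φ hΦ hne P hP
  by_contra hP0
  obtain ⟨v, hv, F, c, ⟨x₁, hx₁, hc₁⟩, hev⟩ := hL (max 0 4 + 1) (fun t => t ≤ 2) P hP0
  obtain ⟨κ, δ, C, h₁, hκ, hδ, hC, hh₁, hasy⟩ := hA M hM (fun j : Fin 5 => v j) (fun i => hv i)
  obtain ⟨Y, hYd⟩ : ∃ Y : ℝ → ℝ, ∀ h, Y h = M ![v 0 * h, v 1 * h, v 2 * h, v 3, v 4] :=
    ⟨_, fun _ => rfl⟩
  have hvec : ∀ h : ℝ, (fun j : Fin 5 => v j * if (j : ℕ) ≤ 2 then h else 1) =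
      ![v 0 * h, v 1 * h, v 2 * h, v 3, v 4] := by
    intro h
    funext j
    fin_cases j <;> simp
  have hupos : ∀ h : ℝ, 0 < h → ∀ t : ℕ, 0 < v t * if t ≤ 2 then h else 1 := by
    intro h hh t
    have := hv t
    split_ifs
    · positivity
    · positivity
  have hYpos : ∀ h, 0 < h → 0 < Y h := by
    intro h hh
    rw [hYd h, ← hvec h]
    obtain ⟨A, hA0, hAle⟩ : ∃ A : ℝ, 0 < A ∧ ∀ i : Fin 5, A ≤ v i * if (i : ℕ) ≤ 2 then h else 1 := by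
      obtain ⟨i₀, _, hi₀⟩ := Finset.exists_min_image (Finset.univ : Finset (Fin 5))
        (fun i : Fin 5 => v i * if (i : ℕ) ≤ 2 then h else 1) ⟨0, Finset.mem_univ _⟩
      exact ⟨_, hupos h hh i₀, fun i => hi₀ i (Finset.mem_univ _)⟩
    exact hA0.trans_le (hM.lowb _ A (fun i => hupos h hh i) hAle)
  have hsum : ∀ h, 0 < h → ∑ x ∈ F, c x * h ^ x.1 * Y h ^ x.2 = 0 := by
    intro h hh
    rw [← hev h (Y h) hh (hYpos h hh)]
    obtain ⟨x, hx, hxi⟩ := hM.mem (fun t => v t * if t ≤ 2 then h else 1) (hupos h hh)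
    have hxe : pt (max 0 4 + 1) (fun t => t ≤ 2) v h (Y h) = x := by
      funext i
      rw [hxi i, hYd h, ← hvec h]
      unfold pt
      by_cases hi : (i : ℕ) ≤ 2
      · simp only [hi, if_true]
      · simp only [hi, if_false]
    rw [hxe]
    exact hP x hx
  -- the limit
  have hlim : ∀ h₀ : ℝ, 0 < h₀ →
      Tendsto (fun s : ℕ => Y (4 ^ s * h₀) / 2 ^ s) atTop (𝓝 (κ * Φ (δ * h₀))) := by
    intro h₀ hh₀
    have h4 : Tendsto (fun s : ℕ => (4 : ℝ) ^ s * h₀) atTop atTop :=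
      (tendsto_pow_atTop_atTop_of_one_lt (by norm_num : (1 : ℝ) < 4)).atTop_mul_const hh₀
    have h5 : Tendsto (fun s : ℕ => C / ((4 : ℝ) ^ s * h₀)) atTop (𝓝 0) :=
      h4.const_div_atTop C
    have h6 := (hΦ.lim (δ * h₀) (mul_pos hδ hh₀)).const_mul κ
    have h7 : Tendsto (fun s : ℕ => (1 - C / ((4 : ℝ) ^ s * h₀)) *
        (κ * (M (sh (4 ^ s * (δ * h₀))) / 2 ^ s))) atTop (𝓝 (κ * Φ (δ * h₀))) := by
      have := (tendsto_const_nhds (x := (1 : ℝ))).sub h5 |>.mul h6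
      rwa [sub_zero, one_mul] at this
    have h8 : Tendsto (fun s : ℕ => (1 + C / ((4 : ℝ) ^ s * h₀)) *
        (κ * (M (sh (4 ^ s * (δ * h₀))) / 2 ^ s))) atTop (𝓝 (κ * Φ (δ * h₀))) := by
      have := (tendsto_const_nhds (x := (1 : ℝ))).add h5 |>.mul h6
      rwa [add_zero, one_mul] at this
    have hev1 : ∀ᶠ s : ℕ in atTop, h₁ ≤ (4 : ℝ) ^ s * h₀ := h4.eventually_ge_atTop h₁
    refine tendsto_of_tendsto_of_tendsto_of_le_of_le' h7 h8 ?_ ?_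
    · filter_upwards [hev1] with s hs
      have := (hasy _ hs).1
      have h2 : (0 : ℝ) < 2 ^ s := by positivity
      rw [hYd, le_div_iff₀ h2]
      have he : δ * (4 ^ s * h₀) = 4 ^ s * (δ * h₀) := by ring
      rw [he] at this
      refine le_trans (le_of_eq ?_) this
      field_simp
    · filter_upwards [hev1] with s hs
      have := (hasy _ hs).2
      have h2 : (0 : ℝ) < 2 ^ s := by positivity
      rw [hYd, div_le_iff₀ h2]
      have he : δ * (4 ^ s * h₀) = 4 ^ s * (δ * h₀) := by ring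
      rw [he] at this
      refine le_trans this (le_of_eq ?_)
      field_simp
  -- the largest weight
  obtain ⟨x₂, hx₂, hmax⟩ := Finset.exists_max_image (F.filter (fun x => c x ≠ 0))
    (fun x : ℤ × ℤ => 2 * x.1 + x.2) ⟨x₁, Finset.mem_filter.mpr ⟨hx₁, hc₁⟩⟩
  have hx₂' := Finset.mem_filter.mp hx₂
  have hrel : ∀ h₀ : ℝ, 0 < h₀ →
      ∑ x ∈ F.filter (fun x => c x ≠ 0 ∧ 2 * x.1 + x.2 = 2 * x₂.1 + x₂.2),
        c x * (h₀ / (κ * Φ (δ * h₀)) ^ 2) ^ x.1 = 0 := by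
    intro h₀ hh₀
    refine lim_sum F c (2 * x₂.1 + x₂.2)
      (fun x hx hc => hmax x (Finset.mem_filter.mpr ⟨hx, hc⟩)) h₀ (κ * Φ (δ * h₀)) hh₀
      (mul_pos hκ (hΦ.pos _ (mul_pos hδ hh₀))) (fun s => Y (4 ^ s * h₀)) (hlim h₀ hh₀) ?_
    intro s
    exact hsum (4 ^ s * h₀) (by positivity)
  -- the values
  have hcont : ContinuousOn (fun h₀ : ℝ => h₀ / (κ * Φ (δ * h₀)) ^ 2) (Ioi 0) := by
    refine continuousOn_id.div ?_ ?_
    · refine (continuousOn_const.mul ?_).pow 2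
      exact hΦ.cont.comp (by fun_prop) (fun x hx => mul_pos hδ hx)
    · intro x hx
      have := mul_pos hκ (hΦ.pos _ (mul_pos hδ hx))
      positivity
  obtain ⟨Z, hZd⟩ : ∃ Z : Set ℝ, Z = (fun h₀ : ℝ => h₀ / (κ * Φ (δ * h₀)) ^ 2) '' Ioi 0 := ⟨_, rfl⟩
  have hZi : Z.Infinite := by
    have ha : 0 < (3 / 2 : ℝ) / δ := by positivity
    have hb : 0 < (5 / 2 : ℝ) / δ := by positivity
    have hsub : uIcc ((3 / 2 : ℝ) / δ) ((5 / 2 : ℝ) / δ) ⊆ Ioi 0 := by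
      intro y hy
      exact lt_of_lt_of_le (lt_min ha hb) hy.1
    have h1 := intermediate_value_uIcc (hcont.mono hsub)
    refine Set.Infinite.mono (h1.trans ?_) ?_
    · rw [hZd]; exact Set.image_mono hsub
    · refine Set.Icc_infinite ?_
      rw [inf_lt_sup]
      have e1 : δ * ((3 / 2 : ℝ) / δ) = 3 / 2 := by field_simp
      have e2 : δ * ((5 / 2 : ℝ) / δ) = 5 / 2 := by field_simp
      simp only [e1, e2]
      intro he
      apply hne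
      have p1 := hΦ.pos (3 / 2) (by norm_num)
      have p2 := hΦ.pos (5 / 2) (by norm_num)
      have h5 : Φ (3 / 2) ^ 2 * (5 / 2) = Φ (5 / 2) ^ 2 * (3 / 2) := by
        field_simp at he
        linarith
      linarith
  have hfin := laurent (F.filter (fun x => c x ≠ 0 ∧ 2 * x.1 + x.2 = 2 * x₂.1 + x₂.2)) c
    (2 * x₂.1 + x₂.2) (fun x hx => (Finset.mem_filter.mp hx).2.2) Z hZi
    (by
      rintro z hz
      rw [hZd] at hz
      obtain ⟨h₀, hh₀, rfl⟩ := hz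
      have := mul_pos hκ (hΦ.pos _ (mul_pos hδ hh₀))
      have h0 : (0 : ℝ) < h₀ := hh₀
      show (0 : ℝ) < h₀ / (κ * Φ (δ * h₀)) ^ 2
      positivity)
    (by
      rintro z hz
      rw [hZd] at hz
      obtain ⟨h₀, hh₀, rfl⟩ := hz
      exact hrel h₀ hh₀)
  exact hx₂'.2 (hfin x₂ (Finset.mem_filter.mpr ⟨hx₂'.1, hx₂'.2, rfl⟩))

end Pool.Agent.N551.ZF
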