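import Mathlib
import Pool.Agent.N551.ZF.Stm

/-!
# Project ZF (helper551), leaf ASY1: estimate of the third iterate of `sh h` (helper55)
-/

set_option autoImplicit false

namespace Pool.Agent.N551.ZF

namespace ASY1_

theorem all5 {P : Fin 5 → Prop} (h0 : P 0) (h1 : P 1) (h2 : P 2) (h3 : P 3) (h4 : P 4) :
    ∀ i, P i := by
  intro i
  fin_cases i
  · exact h0
  · exact h1
  · exact h2
  · exact h3
  · exact h4

theorem T_vec (a b c d e : ℝ) :
    T ![a, b, c, d, e] = ![c, d, e, H e a, (H e a + b) / 2] := by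
  unfold T
  rfl

theorem H_pos {x y : ℝ} (hx : 0 < x) (hy : 0 < y) : 0 < H x y := by
  unfold H
  positivity

theorem H_le {x y : ℝ} (hx : 0 < x) (hy : 0 < y) : H x y ≤ (x + y) / 2 := by
  unfold H
  rw [div_le_div_iff₀ (by linarith) (by norm_num)]
  nlinarith [sq_nonneg (x - y)]

theorem H_ge {x y : ℝ} (hy : 0 < y) (hxy : y ≤ x) : y ≤ H x y := by
  unfold H
  rw [le_div_iff₀ (by linarith)]
  nlinarith

theorem H_four {x : ℝ} (hx : 0 < x) : H x 2 ≤ 4 := by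
  unfold H
  rw [div_le_iff₀ (by linarith)]
  linarith

theorem H_comm (x y : ℝ) : H x y = H y x := by
  unfold H
  rw [add_comm x y]
  ring

theorem H_low {x t : ℝ} (hx : 0 < x) (ht : 0 ≤ t) (h : 2 ≤ t * x) : 4 * (1 - t) ≤ H x 2 := by
  unfold H
  rw [le_div_iff₀ (by linarith)]
  nlinarith

end ASY1_

open ASY1_ in
theorem t_ASY1 : S_ASY1 := by
  intro M hM h hh
  have h0 : 0 < h := by linarith
  obtain ⟨t, ht⟩ : ∃ t, t = 10 / h := ⟨_, rfl⟩
  have ht0 : 0 < t := by rw [ht]; positivity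
  have hth : t * h = 10 := by rw [ht]; field_simp
  have ht1 : t < 1 := by
    rw [ht, div_lt_one h0]
    linarith
  rw [← ht]
  obtain ⟨a, ha⟩ : ∃ a, a = H 2 h := ⟨_, rfl⟩
  obtain ⟨b, hb⟩ : ∃ b, b = (a + h) / 2 := ⟨_, rfl⟩
  obtain ⟨c, hc⟩ : ∃ c, c = H b (h / 2) := ⟨_, rfl⟩
  obtain ⟨d, hd⟩ : ∃ d, d = (c + 2) / 2 := ⟨_, rfl⟩
  obtain ⟨e, he⟩ : ∃ e, e = H d 2 := ⟨_, rfl⟩
  obtain ⟨f, hf⟩ : ∃ f, f = (e + a) / 2 := ⟨_, rfl⟩
  have ha0 : 0 < a := by rw [ha]; exact H_pos (by norm_num) h0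
  have ha4 : a ≤ 4 := by rw [ha, H_comm]; exact H_four h0
  have hal : 4 * (1 - t) ≤ a := by rw [ha, H_comm]; exact H_low h0 ht0.le (by linarith)
  have hb1 : h / 2 ≤ b := by linarith
  have hb0 : 0 < b := by linarith
  have hc0 : 0 < c := by rw [hc]; exact H_pos hb0 (by linarith)
  have hc1 : h / 2 ≤ c := by rw [hc]; exact H_ge (by linarith) hb1
  have hc2 : c ≤ (b + h / 2) / 2 := by rw [hc]; exact H_le hb0 (by linarith)
  have hd0 : 0 < d := by linarith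
  have he0 : 0 < e := by rw [he]; exact H_pos hd0 (by norm_num)
  have he4 : e ≤ 4 := by rw [he]; exact H_four hd0
  have hel : 4 * (1 - t) ≤ e := by
    rw [he]
    refine H_low hd0 ht0.le ?_
    have h1 : t * (h / 4) ≤ t * d := mul_le_mul_of_nonneg_left (by linarith) ht0.le
    nlinarith
  have hf0 : 0 < f := by linarith
  have e1 : T (sh h) = ![h / 2, 2, 2, a, b] := by
    rw [sh, T_vec, ← ha, ← hb]
  have e2 : T ![h / 2, 2, 2, a, b] = ![2, a, b, c, d] := by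
    rw [T_vec, ← hc, ← hd]
  have e3 : T ![2, a, b, c, d] = ![b, c, d, e, f] := by
    rw [T_vec, ← he, ← hf]
  have p0 : ∀ i, 0 < sh h i := all5 h0 h0 (half_pos h0) two_pos two_pos
  have p1 : ∀ i, 0 < (![h / 2, 2, 2, a, b] : Fin 5 → ℝ) i :=
    all5 (half_pos h0) two_pos two_pos ha0 hb0
  have p2 : ∀ i, 0 < (![2, a, b, c, d] : Fin 5 → ℝ) i := all5 two_pos ha0 hb0 hc0 hd0
  have p3 : ∀ i, 0 < (![b, c, d, e, f] : Fin 5 → ℝ) i := all5 hb0 hc0 hd0 he0 hf0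
  have hq : ∀ i, 0 < sh (h / 4) i :=
    all5 (P := fun i => 0 < sh (h / 4) i) (show 0 < h / 4 by linarith) (show 0 < h / 4 by linarith)
      (show 0 < h / 4 / 2 by linarith) two_pos two_pos
  have hMM : M (sh h) = M ![b, c, d, e, f] := by
    rw [← hM.inv _ p0, e1, ← hM.inv _ p1, e2, ← hM.inv _ p2, e3]
  rw [hMM]
  have c1 : 0 < (1 - t) * 2 := by linarith
  have c2 : 0 < (1 + t) * 2 := by linarith
  constructor
  · have h1 := hM.hom (sh (h / 4)) _ hq c1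
    rw [← mul_assoc, ← h1]
    refine hM.mono _ _ (fun i => mul_pos c1 (hq i)) ?_
    refine all5 ?_ ?_ ?_ ?_ ?_
    · show (1 - t) * 2 * (h / 4) ≤ b
      nlinarith
    · show (1 - t) * 2 * (h / 4) ≤ c
      nlinarith
    · show (1 - t) * 2 * (h / 4 / 2) ≤ d
      nlinarith
    · show (1 - t) * 2 * 2 ≤ e
      linarith
    · show (1 - t) * 2 * 2 ≤ f
      linarith
  · have h1 := hM.hom (sh (h / 4)) _ hq c2
    rw [← mul_assoc, ← h1]
    refine hM.mono _ _ p3 ?_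
    refine all5 ?_ ?_ ?_ ?_ ?_
    · show b ≤ (1 + t) * 2 * (h / 4)
      nlinarith
    · show c ≤ (1 + t) * 2 * (h / 4)
      nlinarith
    · show d ≤ (1 + t) * 2 * (h / 4 / 2)
      nlinarith
    · show e ≤ (1 + t) * 2 * 2
      linarith
    · show f ≤ (1 + t) * 2 * 2
      linarith

end Pool.Agent.N551.ZF
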