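import Mathlib
import Pool.Agent.N551.ZF.Stm

/-!
# ASY2: the asymptotics of the sixth image of a state
-/

set_option autoImplicit false

open Filter Topology Set

namespace Pool.Agent.N551.ZF

noncomputable section

namespace ASY2_

/-- `f` is `g` up to factors `1 ± C / h`. -/
def E (f g : ℝ → ℝ) : Prop :=
  ∃ C : ℝ, 0 < C ∧ ∀ᶠ h in atTop, 0 < g h ∧ (1 - C / h) * g h ≤ f h ∧ f h ≤ (1 + C / h) * g h

/-- constants -/
def K (a : ℝ) : ℝ → ℝ := fun _ => a

/-- linear functions -/
def L (b : ℝ) : ℝ → ℝ := fun h => b * h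

theorem H_pos {x y : ℝ} (hx : 0 < x) (hy : 0 < y) : 0 < H x y := by
  unfold H
  positivity

theorem H_mono {x y x' y' : ℝ} (hx : 0 < x) (hy : 0 < y) (hxx : x ≤ x') (hyy : y ≤ y') :
    H x y ≤ H x' y' := by
  unfold H
  have hx' : 0 < x' := lt_of_lt_of_le hx hxx
  have hy' : 0 < y' := lt_of_lt_of_le hy hyy
  rw [div_le_div_iff₀ (by positivity) (by positivity)]
  have h1 : x * x' * y ≤ x * x' * y' := mul_le_mul_of_nonneg_left hyy (by positivity)
  have h2 : y * y' * x ≤ y * y' * x' := mul_le_mul_of_nonneg_left hxx (by positivity)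
  nlinarith

theorem H_smul {x y c : ℝ} (hc : 0 < c) : H (c * x) (c * y) = c * H x y := by
  unfold H
  rw [← mul_add, show 2 * (c * x) * (c * y) = c * (c * (2 * x * y)) by ring,
    mul_div_mul_left _ _ hc.ne', mul_div_assoc]

theorem H_comm (x y : ℝ) : H x y = H y x := by
  unfold H
  rw [add_comm, show 2 * x * y = 2 * y * x by ring]

theorem E.trans {f g k : ℝ → ℝ} (h1 : E f g) (h2 : E g k) : E f k := by
  obtain ⟨C, hC, h1⟩ := h1
  obtain ⟨D, hD, h2⟩ := h2
  refine ⟨C + D + C * D, by positivity, ?_⟩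
  filter_upwards [h1, h2, eventually_ge_atTop (1 : ℝ), eventually_ge_atTop C] with h a1 a2 a3 a4
  obtain ⟨-, b2, b3⟩ := a1
  obtain ⟨c1, c2, c3⟩ := a2
  have hh : 0 < h := by linarith
  have e1 : 0 ≤ 1 - C / h := by
    rw [sub_nonneg, div_le_one hh]
    exact a4
  have e2 : 0 ≤ C / h := by positivity
  have e3 : 0 ≤ D / h := by positivity
  have e4 : C / h * (D / h) ≤ C * D / h := by
    rw [div_mul_div_comm]
    apply div_le_div_of_nonneg_left (by positivity) hh
    nlinarith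
  have e5 : (C + D + C * D) / h = C / h + D / h + C * D / h := by
    rw [add_div, add_div]
  have e6 : 0 ≤ C * D / h := by positivity
  refine ⟨c1, ?_, ?_⟩
  · refine le_trans ?_ b2
    refine le_trans ?_ (mul_le_mul_of_nonneg_left c2 e1)
    rw [← mul_assoc]
    apply mul_le_mul_of_nonneg_right _ c1.le
    rw [e5]
    nlinarith [mul_nonneg e2 e3]
  · refine b3.trans ?_
    refine (mul_le_mul_of_nonneg_left c3 (by positivity)).trans ?_
    rw [← mul_assoc]
    apply mul_le_mul_of_nonneg_right _ c1.le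
    rw [e5]
    nlinarith

theorem E.refl {f : ℝ → ℝ} (hf : ∀ᶠ h in atTop, 0 < f h) : E f f := by
  refine ⟨1, one_pos, ?_⟩
  filter_upwards [hf, eventually_gt_atTop (0 : ℝ)] with h h1 h2
  have : 0 < 1 / h := by positivity
  refine ⟨h1, ?_, ?_⟩ <;> nlinarith

theorem E.hH {f g f' g' : ℝ → ℝ} (h1 : E f g) (h2 : E f' g') :
    E (fun h => H (f h) (f' h)) (fun h => H (g h) (g' h)) := by
  obtain ⟨C, hC, h1⟩ := h1
  obtain ⟨D, hD, h2⟩ := h2
  refine ⟨C + D, by positivity, ?_⟩
  filter_upwards [h1, h2, eventually_ge_atTop (1 : ℝ), eventually_gt_atTop (C + D)] with h a1 a2 a3 a4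
  obtain ⟨b1, b2, b3⟩ := a1
  obtain ⟨c1, c2, c3⟩ := a2
  have hh : 0 < h := by linarith
  have e0 : 0 < 1 - (C + D) / h := by
    rw [sub_pos, div_lt_one hh]
    exact a4
  have e2 : 0 < C / h := by positivity
  have e3 : 0 < D / h := by positivity
  have e5 : (C + D) / h = C / h + D / h := add_div _ _ _
  refine ⟨H_pos b1 c1, ?_, ?_⟩
  · rw [← H_smul e0]
    refine H_mono (mul_pos e0 b1) (mul_pos e0 c1) (le_trans ?_ b2) (le_trans ?_ c2)
    · apply mul_le_mul_of_nonneg_right _ b1.le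
      rw [e5]; linarith
    · apply mul_le_mul_of_nonneg_right _ c1.le
      rw [e5]; linarith
  · have e1 : 0 < 1 + (C + D) / h := by positivity
    have f1 : 0 < f h := by
      refine lt_of_lt_of_le (mul_pos ?_ b1) b2
      rw [e5] at e0
      linarith
    have f2 : 0 < f' h := by
      refine lt_of_lt_of_le (mul_pos ?_ c1) c2
      rw [e5] at e0
      linarith
    rw [← H_smul e1]
    refine H_mono f1 f2 (b3.trans ?_) (c3.trans ?_)
    · apply mul_le_mul_of_nonneg_right _ b1.le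
      rw [e5]; linarith
    · apply mul_le_mul_of_nonneg_right _ c1.le
      rw [e5]; linarith

theorem E.hA {f g f' g' : ℝ → ℝ} (h1 : E f g) (h2 : E f' g') :
    E (fun h => (f h + f' h) / 2) (fun h => (g h + g' h) / 2) := by
  obtain ⟨C, hC, h1⟩ := h1
  obtain ⟨D, hD, h2⟩ := h2
  refine ⟨C + D, by positivity, ?_⟩
  filter_upwards [h1, h2, eventually_ge_atTop (1 : ℝ)] with h a1 a2 a3
  obtain ⟨b1, b2, b3⟩ := a1
  obtain ⟨c1, c2, c3⟩ := a2
  have hh : 0 < h := by linarith
  have e2 : 0 < C / h := by positivity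
  have e3 : 0 < D / h := by positivity
  have e5 : (C + D) / h = C / h + D / h := add_div _ _ _
  have p1 := mul_pos e2 c1
  have p2 := mul_pos e3 b1
  refine ⟨by positivity, ?_, ?_⟩
  · rw [e5]
    nlinarith
  · rw [e5]
    nlinarith

theorem base_H {a b : ℝ} (ha : 0 < a) (hb : 0 < b) :
    E (fun h => H (K a h) (L b h)) (K (2 * a)) := by
  refine ⟨a / b, by positivity, ?_⟩
  filter_upwards [eventually_gt_atTop (0 : ℝ)] with h hh
  have h1 : 0 < a + b * h := by positivity
  have h2 : 0 < a / b / h := by positivity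
  simp only [K, L, H]
  refine ⟨by positivity, ?_, ?_⟩
  · rw [le_div_iff₀ h1]
    have h3 : a / b / h * (b * h) = a := by field_simp
    have h4 : (1 - a / b / h) * (2 * a) * (a + b * h) =
        2 * a * (b * h) + 2 * a * (a - a / b / h * (b * h)) - 2 * a * (a / b / h) * a := by ring
    rw [h4, h3]
    have h5 : 0 < 2 * a * (a / b / h) * a := by positivity
    linarith
  · rw [div_le_iff₀ h1]
    have h5 : 0 < a / b / h * (2 * a) * (a + b * h) := by positivity
    nlinarith

theorem base_A {a b : ℝ} (ha : 0 < a) (hb : 0 < b) :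
    E (fun h => (K a h + L b h) / 2) (L (b / 2)) := by
  refine ⟨a / b, by positivity, ?_⟩
  filter_upwards [eventually_gt_atTop (0 : ℝ)] with h hh
  have h2 : 0 < a / b / h := by positivity
  have h3 : a / b / h * (b * h) = a := by field_simp
  simp only [K, L]
  refine ⟨by positivity, ?_, ?_⟩
  · have h4 : (1 - a / b / h) * (b / 2 * h) = (b * h - a / b / h * (b * h)) / 2 := by ring
    rw [h4, h3]
    linarith
  · have h4 : (1 + a / b / h) * (b / 2 * h) = (b * h + a / b / h * (b * h)) / 2 := by ring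
    rw [h4, h3]
    linarith

variable {f g : ℝ → ℝ} {a a' b b' : ℝ}

theorem H_cl (ha : 0 < a) (hb : 0 < b) (h1 : E f (K a)) (h2 : E g (L b)) :
    E (fun h => H (f h) (g h)) (K (2 * a)) :=
  (h1.hH h2).trans (base_H ha hb)

theorem H_lc (ha : 0 < a) (hb : 0 < b) (h1 : E f (L b)) (h2 : E g (K a)) :
    E (fun h => H (f h) (g h)) (K (2 * a)) := by
  have := H_cl ha hb h2 h1
  simpa only [H_comm] using this

theorem L_pos (hb : 0 < b) : ∀ᶠ h in atTop, 0 < L b h := by
  filter_upwards [eventually_gt_atTop (0 : ℝ)] with h hh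
  exact mul_pos hb hh

theorem H_ll (hb : 0 < b) (hb' : 0 < b') (h1 : E f (L b)) (h2 : E g (L b')) :
    E (fun h => H (f h) (g h)) (L (H b b')) := by
  refine (h1.hH h2).trans ?_
  have h3 : E (L (H b b')) (L (H b b')) := E.refl (L_pos (H_pos hb hb'))
  obtain ⟨C, hC, h3⟩ := h3
  refine ⟨C, hC, ?_⟩
  filter_upwards [h3, eventually_gt_atTop (0 : ℝ)] with h a1 a2
  have h4 : H (L b h) (L b' h) = L (H b b') h := by
    unfold L
    rw [mul_comm b h, mul_comm b' h, H_smul a2, mul_comm]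
  rw [h4]
  exact a1

theorem A_cc (_ : 0 < a) (_ : 0 < a') (h1 : E f (K a)) (h2 : E g (K a')) :
    E (fun h => (f h + g h) / 2) (K ((a + a') / 2)) := h1.hA h2

theorem A_cl (ha : 0 < a) (hb : 0 < b) (h1 : E f (K a)) (h2 : E g (L b)) :
    E (fun h => (f h + g h) / 2) (L (b / 2)) :=
  (h1.hA h2).trans (base_A ha hb)

theorem A_lc (ha : 0 < a) (hb : 0 < b) (h1 : E f (L b)) (h2 : E g (K a)) :
    E (fun h => (f h + g h) / 2) (L (b / 2)) := by
  have := A_cl ha hb h2 h1
  simpa only [add_comm] using this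

theorem T_pos {u : Fin 5 → ℝ} (hu : ∀ i, 0 < u i) : ∀ i, 0 < T u i := by
  intro i
  have h1 := H_pos (hu 4) (hu 0)
  have h2 := hu 1
  fin_cases i
  · exact hu 2
  · exact hu 3
  · exact hu 4
  · exact h1
  · exact (by positivity : 0 < (H (u 4) (u 0) + u 1) / 2)

theorem six {M : (Fin 5 → ℝ) → ℝ} (hM : GoodM M) {u : Fin 5 → ℝ} (hu : ∀ i, 0 < u i) :
    (∀ i, 0 < T (T (T (T (T (T u))))) i) ∧ M (T (T (T (T (T (T u)))))) = M u := by
  have p1 := T_pos hu
  have p2 := T_pos p1
  have p3 := T_pos p2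
  have p4 := T_pos p3
  have p5 := T_pos p4
  refine ⟨T_pos p5, ?_⟩
  rw [hM.inv _ p5, hM.inv _ p4, hM.inv _ p3, hM.inv _ p2, hM.inv _ p1, hM.inv _ hu]

end ASY2_

open ASY2_ in
theorem t_ASY2 : S_ASY2 := by
  intro M hM v hv
  have v0 := hv 0
  have v1 := hv 1
  have v2 := hv 2
  have v3 := hv 3
  have v4 := hv 4
  obtain ⟨η, hη⟩ : ∃ η : ℝ, η = H (v 1 / 2) (v 2) := ⟨_, rfl⟩
  have hη0 : 0 < η := by
    rw [hη]
    exact H_pos (by positivity) v2
  -- the functions
  let w5 : ℝ → ℝ := fun h => H (v 4) (v 0 * h)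
  let w6 : ℝ → ℝ := fun h => (w5 h + v 1 * h) / 2
  let w7 : ℝ → ℝ := fun h => H (w6 h) (v 2 * h)
  let w8 : ℝ → ℝ := fun h => (w7 h + v 3) / 2
  let w9 : ℝ → ℝ := fun h => H (w8 h) (v 4)
  let w10 : ℝ → ℝ := fun h => (w9 h + w5 h) / 2
  let w11 : ℝ → ℝ := fun h => H (w10 h) (w6 h)
  let w12 : ℝ → ℝ := fun h => (w11 h + w7 h) / 2
  let w13 : ℝ → ℝ := fun h => H (w12 h) (w8 h)
  let w14 : ℝ → ℝ := fun h => (w13 h + w9 h) / 2
  let w15 : ℝ → ℝ := fun h => H (w14 h) (w10 h)
  let w16 : ℝ → ℝ := fun h => (w15 h + w11 h) / 2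
  have hT : ∀ h : ℝ, T (T (T (T (T (T ![v 0 * h, v 1 * h, v 2 * h, v 3, v 4]))))) =
      ![w12 h, w13 h, w14 h, w15 h, w16 h] := fun h => rfl
  have cK : ∀ a : ℝ, 0 < a → E (K a) (K a) := fun a ha => E.refl (Eventually.of_forall fun _ => ha)
  have cL : ∀ a : ℝ, 0 < a → E (L a) (L a) := fun a ha => E.refl (L_pos ha)
  have e5 : E w5 (K (2 * v 4)) := H_cl v4 v0 (cK _ v4) (cL _ v0)
  have e6 : E w6 (L (v 1 / 2)) := A_cl (by positivity) v1 e5 (cL _ v1)
  have e7 : E w7 (L η) := by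
    rw [hη]
    exact H_ll (by positivity) v2 e6 (cL _ v2)
  have e8 : E w8 (L (η / 2)) := A_lc v3 hη0 e7 (cK _ v3)
  have e9 : E w9 (K (2 * v 4)) := H_lc v4 (by positivity : 0 < η / 2) e8 (cK _ v4)
  have e10 : E w10 (K (2 * v 4)) := by
    have := A_cc (by positivity) (by positivity) e9 e5
    rwa [show (2 * v 4 + 2 * v 4) / 2 = 2 * v 4 by ring] at this
  have e11 : E w11 (K (4 * v 4)) := by
    have := H_cl (by positivity) (by positivity) e10 e6
    rwa [show 2 * (2 * v 4) = 4 * v 4 by ring] at this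
  have e12 : E w12 (L (η / 2)) := A_cl (by positivity) hη0 e11 e7
  have e13 : E w13 (L (η / 2)) := by
    have := H_ll (by positivity) (by positivity) e12 e8
    rwa [show H (η / 2) (η / 2) = η / 2 by
      unfold H
      field_simp
      ring] at this
  have e14 : E w14 (L (η / 4)) := by
    have := A_lc (by positivity) (by positivity) e13 e9
    rwa [show η / 2 / 2 = η / 4 by ring] at this
  have e15 : E w15 (K (4 * v 4)) := by
    have := H_lc (by positivity) (by positivity) e14 e10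
    rwa [show 2 * (2 * v 4) = 4 * v 4 by ring] at this
  have e16 : E w16 (K (4 * v 4)) := by
    have := A_cc (by positivity) (by positivity) e15 e11
    rwa [show (4 * v 4 + 4 * v 4) / 2 = 4 * v 4 by ring] at this
  obtain ⟨C1, c1, e12⟩ := e12
  obtain ⟨C2, c2, e13⟩ := e13
  obtain ⟨C3, c3, e14⟩ := e14
  obtain ⟨C4, c4, e15⟩ := e15
  obtain ⟨C5, c5, e16⟩ := e16
  obtain ⟨D, hD⟩ : ∃ D : ℝ, D = C1 + C2 + C3 + C4 + C5 := ⟨_, rfl⟩
  have hall := (((e12.and e13).and e14).and e15).and e16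
  obtain ⟨h₀, hh₀⟩ := eventually_atTop.1 hall
  refine ⟨2 * v 4, η / (4 * v 4), D, max (max h₀ 1) (D + 1), by positivity, by positivity,
    by rw [hD]; positivity, lt_max_of_lt_left (lt_max_of_lt_right one_pos), fun h hh => ?_⟩
  obtain ⟨⟨⟨⟨e12, e13⟩, e14⟩, e15⟩, e16⟩ := hh₀ h
    ((le_max_left _ _).trans ((le_max_left _ _).trans hh))
  have h1 : 1 ≤ h := (le_max_right _ _).trans ((le_max_left _ _).trans hh)
  have h0 : 0 < h := by linarith
  have hDh : D < h := by
    have := (le_max_right _ _).trans hh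
    linarith
  have hDpos : 0 < D := by rw [hD]; positivity
  have hfac : 0 < 1 - D / h := by
    rw [sub_pos, div_lt_one h0]
    exact hDh
  have hfac' : 0 < 1 + D / h := by positivity
  have hs0 : ∀ i, 0 < (![v 0 * h, v 1 * h, v 2 * h, v 3, v 4] : Fin 5 → ℝ) i := by
    intro i
    fin_cases i
    · exact mul_pos v0 h0
    · exact mul_pos v1 h0
    · exact mul_pos v2 h0
    · exact v3
    · exact v4
  obtain ⟨q1, q2⟩ := six hM hs0
  rw [hT h] at q1 q2
  have hsh : ∀ i, 0 < sh (η / (4 * v 4) * h) i := by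
    intro i
    have : 0 < η / (4 * v 4) * h := by positivity
    fin_cases i
    · exact this
    · exact this
    · exact (by positivity : 0 < η / (4 * v 4) * h / 2)
    · exact two_pos
    · exact two_pos
  have hle : ∀ C : ℝ, C ≤ D → ∀ x : ℝ, 0 < x → (1 - D / h) * x ≤ (1 - C / h) * x ∧
      (1 + C / h) * x ≤ (1 + D / h) * x := by
    intro C hC x hx
    have h3 : C / h ≤ D / h := div_le_div_of_nonneg_right hC h0.le
    constructor <;> nlinarith
  have d1 := hle C1 (by rw [hD]; linarith) (η / 2 * h) (by positivity)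
  have d2 := hle C2 (by rw [hD]; linarith) (η / 2 * h) (by positivity)
  have d3 := hle C3 (by rw [hD]; linarith) (η / 4 * h) (by positivity)
  have d4 := hle C4 (by rw [hD]; linarith) (4 * v 4) (by positivity)
  have d5 := hle C5 (by rw [hD]; linarith) (4 * v 4) (by positivity)
  simp only [K, L] at e12 e13 e14 e15 e16
  have k1 : ∀ c : ℝ, c * (2 * v 4) * (η / (4 * v 4) * h) = c * (η / 2 * h) := by
    intro c
    field_simp
    ring
  have k2 : ∀ c : ℝ, c * (2 * v 4) * (η / (4 * v 4) * h / 2) = c * (η / 4 * h) := by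
    intro c
    field_simp
  have k3 : ∀ c : ℝ, c * (2 * v 4) * 2 = c * (4 * v 4) := by
    intro c
    ring
  constructor
  · rw [← q2, ← mul_assoc, ← hM.hom _ _ hsh (by positivity)]
    apply hM.mono
    · intro i
      exact mul_pos (by positivity) (hsh i)
    · intro i
      fin_cases i
      · exact (k1 _).le.trans (d1.1.trans e12.2.1)
      · exact (k1 _).le.trans (d2.1.trans e13.2.1)
      · exact (k2 _).le.trans (d3.1.trans e14.2.1)
      · exact (k3 _).le.trans (d4.1.trans e15.2.1)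
      · exact (k3 _).le.trans (d5.1.trans e16.2.1)
  · rw [← q2, ← mul_assoc, ← hM.hom _ _ hsh (by positivity)]
    apply hM.mono _ _ q1
    intro i
    fin_cases i
    · exact (e12.2.2.trans d1.2).trans (k1 _).ge
    · exact (e13.2.2.trans d2.2).trans (k1 _).ge
    · exact (e14.2.2.trans d3.2).trans (k2 _).ge
    · exact (e15.2.2.trans d4.2).trans (k3 _).ge
    · exact (e16.2.2.trans d5.2).trans (k3 _).ge

end

end Pool.Agent.N551.ZF
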