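import Mathlib
import Pool.Agent.N551.ZF.Stm

/-!
# Project ZF, leaf CERT (helper706): numerical bounds by integer iteration
-/

set_option autoImplicit false

namespace Pool.Agent.N551.ZF

namespace CERT_

/-- the iteration with rounding down; at the end all entries are compared with `A` -/
def itL (A : ℕ) : ℕ → ℕ → ℕ → ℕ → ℕ → ℕ → Bool
  | 0, a, b, c, d, e =>
      Nat.ble A a && (Nat.ble A b && (Nat.ble A c && (Nat.ble A d && Nat.ble A e)))
  | k + 1, a, b, c, d, e =>
      Nat.ble 1 (2 * e * a / (e + a)) && (Nat.ble 1 ((2 * e * a / (e + a) + b) / 2) &&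
        itL A k c d e (2 * e * a / (e + a)) ((2 * e * a / (e + a) + b) / 2))

/-- the iteration with rounding up; at the end all entries are compared with `B` -/
def itU (B : ℕ) : ℕ → ℕ → ℕ → ℕ → ℕ → ℕ → Bool
  | 0, a, b, c, d, e =>
      Nat.ble a B && (Nat.ble b B && (Nat.ble c B && (Nat.ble d B && Nat.ble e B)))
  | k + 1, a, b, c, d, e =>
      Nat.ble 1 ((2 * e * a + (e + a)) / (e + a)) &&
        (Nat.ble 1 (((2 * e * a + (e + a)) / (e + a) + b + 1) / 2) &&
        itU B k c d e ((2 * e * a + (e + a)) / (e + a))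
          (((2 * e * a + (e + a)) / (e + a) + b + 1) / 2))

theorem H_pos {x y : ℝ} (hx : 0 < x) (hy : 0 < y) : 0 < H x y := by
  unfold H; positivity

theorem soundL (M : (Fin 5 → ℝ) → ℝ) (hM : GoodM M) (A : ℕ) (k : ℕ) :
    ∀ a b c d e : ℕ, 0 < a → 0 < b → 0 < c → 0 < d → 0 < e → itL A k a b c d e = true →
      (A : ℝ) ≤ M ![(a : ℝ), b, c, d, e] := by
  induction k with
  | zero =>
    intro a b c d e ha hb hc hd he h
    simp only [itL, Bool.and_eq_true, Nat.ble_eq] at h
    obtain ⟨h1, h2, h3, h4, h5⟩ := h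
    apply hM.lowb
    · intro i; fin_cases i <;> simp <;> assumption
    · intro i; fin_cases i <;> simp <;> assumption
  | succ k ih =>
    intro a b c d e ha hb hc hd he h
    simp only [itL, Bool.and_eq_true, Nat.ble_eq] at h
    obtain ⟨h1, h2, h3⟩ := h
    have h4 := ih c d e _ _ hc hd he h1 h2 h3
    have haR : (0 : ℝ) < a := by exact_mod_cast ha
    have hbR : (0 : ℝ) < b := by exact_mod_cast hb
    have hcR : (0 : ℝ) < c := by exact_mod_cast hc
    have hdR : (0 : ℝ) < d := by exact_mod_cast hd
    have heR : (0 : ℝ) < e := by exact_mod_cast he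
    have hpos : ∀ i : Fin 5, 0 < (![(a : ℝ), b, c, d, e] : Fin 5 → ℝ) i := by
      intro i; fin_cases i <;> simp <;> assumption
    rw [← hM.inv _ hpos]
    refine h4.trans ?_
    have hH : ((2 * e * a / (e + a) : ℕ) : ℝ) ≤ H e a := by
      refine Nat.cast_div_le.trans ?_
      unfold H
      push_cast
      exact le_rfl
    have hG : (((2 * e * a / (e + a) + b) / 2 : ℕ) : ℝ) ≤ (H e a + b) / 2 := by
      refine Nat.cast_div_le.trans ?_
      push_cast
      linarith
    apply hM.mono
    · intro i
      have g1 : (0 : ℝ) < ((2 * e * a / (e + a) : ℕ) : ℝ) := by exact_mod_cast h1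
      have g2 : (0 : ℝ) < (((2 * e * a / (e + a) + b) / 2 : ℕ) : ℝ) := by exact_mod_cast h2
      fin_cases i
      · exact hcR
      · exact hdR
      · exact heR
      · exact g1
      · exact g2
    · intro i
      fin_cases i
      · exact le_rfl
      · exact le_rfl
      · exact le_rfl
      · exact hH
      · exact hG

theorem soundU (M : (Fin 5 → ℝ) → ℝ) (hM : GoodM M) (B : ℕ) (k : ℕ) :
    ∀ a b c d e : ℕ, 0 < a → 0 < b → 0 < c → 0 < d → 0 < e → itU B k a b c d e = true →
      M ![(a : ℝ), b, c, d, e] ≤ (B : ℝ) := by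
  induction k with
  | zero =>
    intro a b c d e ha hb hc hd he h
    simp only [itU, Bool.and_eq_true, Nat.ble_eq] at h
    obtain ⟨h1, h2, h3, h4, h5⟩ := h
    apply hM.upb
    · intro i; fin_cases i <;> simp <;> assumption
    · intro i; fin_cases i <;> simp <;> assumption
  | succ k ih =>
    intro a b c d e ha hb hc hd he h
    simp only [itU, Bool.and_eq_true, Nat.ble_eq] at h
    obtain ⟨h1, h2, h3⟩ := h
    have h4 := ih c d e _ _ hc hd he h1 h2 h3
    have haR : (0 : ℝ) < a := by exact_mod_cast ha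
    have hbR : (0 : ℝ) < b := by exact_mod_cast hb
    have hcR : (0 : ℝ) < c := by exact_mod_cast hc
    have hdR : (0 : ℝ) < d := by exact_mod_cast hd
    have heR : (0 : ℝ) < e := by exact_mod_cast he
    have hpos : ∀ i : Fin 5, 0 < (![(a : ℝ), b, c, d, e] : Fin 5 → ℝ) i := by
      intro i; fin_cases i <;> simp <;> assumption
    rw [← hM.inv _ hpos]
    refine le_trans ?_ h4
    have key : ∀ x y : ℕ, 0 < y → (x : ℝ) / y ≤ (((x + y) / y : ℕ) : ℝ) := by
      intro x y hy
      rw [Nat.add_div_right x hy]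
      have hyR : (0 : ℝ) < y := by exact_mod_cast hy
      rw [div_le_iff₀ hyR]
      have h1 := Nat.div_add_mod x y
      have h2 := Nat.mod_lt x hy
      have h3 : x ≤ (x / y + 1) * y := by nlinarith
      exact_mod_cast h3
    have hH : H e a ≤ (((2 * e * a + (e + a)) / (e + a) : ℕ) : ℝ) := by
      refine le_trans (le_of_eq ?_) (key (2 * e * a) (e + a) (by omega))
      unfold H
      push_cast
      rfl
    have hG : (H e a + b) / 2 ≤ ((((2 * e * a + (e + a)) / (e + a) + b + 1) / 2 : ℕ) : ℝ) := by
      have g : ∀ z : ℕ, (z : ℝ) / 2 ≤ (((z + 1) / 2 : ℕ) : ℝ) := by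
        intro z
        have : z ≤ 2 * ((z + 1) / 2) := by omega
        have h' : (z : ℝ) ≤ 2 * (((z + 1) / 2 : ℕ) : ℝ) := by exact_mod_cast this
        linarith
      refine le_trans ?_ (g ((2 * e * a + (e + a)) / (e + a) + b))
      push_cast
      have := hH
      linarith
    have hTpos : 0 < H e a := H_pos heR haR
    apply hM.mono
    · intro i
      fin_cases i
      · exact hcR
      · exact hdR
      · exact heR
      · exact hTpos
      · show 0 < (H e a + b) / 2
        positivity
    · intro i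
      fin_cases i
      · exact le_rfl
      · exact le_rfl
      · exact le_rfl
      · exact hH
      · exact hG

theorem evL : itL 11931455488000000 130 100663296000000000000 100663296000000000000
    50331648000000000000 2000000000000 2000000000000 = true := by decide +kernel

theorem evU : itU 15403417600000000 130 167772160000000000000 167772160000000000000
    83886080000000000000 2000000000000 2000000000000 = true := by decide +kernel

end CERT_

open CERT_ in
theorem t_CERT : S_CERT := by
  intro M hM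
  have hsc : ∀ h : ℝ, 0 < h → M ![(10 : ℝ) ^ 12 * h, 10 ^ 12 * h, 10 ^ 12 * (h / 2), 10 ^ 12 * 2,
      10 ^ 12 * 2] = 10 ^ 12 * M (sh h) := by
    intro h hh
    rw [← hM.hom (sh h) ((10 : ℝ) ^ 12) ?_ (by positivity)]
    · congr 1
      funext i
      fin_cases i <;> rfl
    · intro i
      fin_cases i
      · exact hh
      · exact hh
      · show 0 < h / 2
        positivity
      · show (0 : ℝ) < 2
        norm_num
      · show (0 : ℝ) < 2
        norm_num
  constructor
  · have h1 := soundL M hM _ _ _ _ _ _ _ (by norm_num) (by norm_num) (by norm_num) (by norm_num)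
      (by norm_num) evL
    have h2 := hsc (4 ^ 13 * (3 / 2)) (by positivity)
    have h3 : (![((100663296000000000000 : ℕ) : ℝ), ((100663296000000000000 : ℕ) : ℝ),
        ((50331648000000000000 : ℕ) : ℝ), ((2000000000000 : ℕ) : ℝ), ((2000000000000 : ℕ) : ℝ)] :
          Fin 5 → ℝ) =
        ![(10 : ℝ) ^ 12 * (4 ^ 13 * (3 / 2)), 10 ^ 12 * (4 ^ 13 * (3 / 2)),
          10 ^ 12 * (4 ^ 13 * (3 / 2) / 2), 10 ^ 12 * 2, 10 ^ 12 * 2] := by
      norm_num
    rw [h3, h2] at h1
    have h4 : ((11931455488000000 : ℕ) : ℝ) = 10 ^ 12 * (1.4564765 * 2 ^ 13) := by norm_num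
    rw [h4] at h1
    exact le_of_mul_le_mul_left h1 (by positivity)
  · have h1 := soundU M hM _ _ _ _ _ _ _ (by norm_num) (by norm_num) (by norm_num) (by norm_num)
      (by norm_num) evU
    have h2 := hsc (4 ^ 13 * (5 / 2)) (by positivity)
    have h3 : (![((167772160000000000000 : ℕ) : ℝ), ((167772160000000000000 : ℕ) : ℝ),
        ((83886080000000000000 : ℕ) : ℝ), ((2000000000000 : ℕ) : ℝ), ((2000000000000 : ℕ) : ℝ)] :
          Fin 5 → ℝ) =
        ![(10 : ℝ) ^ 12 * (4 ^ 13 * (5 / 2)), 10 ^ 12 * (4 ^ 13 * (5 / 2)),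
          10 ^ 12 * (4 ^ 13 * (5 / 2) / 2), 10 ^ 12 * 2, 10 ^ 12 * 2] := by
      norm_num
    rw [h3, h2] at h1
    have h4 : ((15403417600000000 : ℕ) : ℝ) = 10 ^ 12 * (1.880300 * 2 ^ 13) := by norm_num
    rw [h4] at h1
    exact le_of_mul_le_mul_left h1 (by positivity)

end Pool.Agent.N551.ZF
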