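import Mathlib
import Pool.Agent.N551.ZF.Stm
import Pool.Agent.N551.ZE.MEM

/-!
# Project ZF (helper551), leaf EX (helper373): the limit function
-/

set_option autoImplicit false

open Filter Topology Set
open Pool.Agent.N420.BS (basin sol)
open Pool.Agent.N551.ZE

namespace Pool.Agent.N551.ZF

namespace EX_

theorem hmean {a b c : ℝ} (ha : 0 < a) (hb : 0 < b) (h : 1 / c = (1 / a + 1 / b) / 2) :
    c = H a b := by
  have hc : c = 1 / (1 / c) := (one_div_one_div c).symm
  rw [hc, h]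
  unfold H
  have : a + b ≠ 0 := by positivity
  field_simp
  ring

/-- comparison of two sequences -/
theorem rec_le {w w' : ℕ → ℝ} (h : Rec 1 5 w) (h' : Rec 1 5 w') (h0 : ∀ t, t < 5 → w t ≤ w' t) :
    ∀ t, w t ≤ w' t := by
  intro t
  induction t using Nat.strong_induction_on with
  | _ t ih =>
    rcases lt_or_ge t 5 with ht | ht
    · exact h0 t ht
    · have i1 := ih (t - 1) (by omega)
      have i5 := ih (t - 5) (by omega)
      rcases Nat.mod_two_eq_zero_or_one t with he | ho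
      · rw [(h.2 t ht).1 he, (h'.2 t ht).1 he]
        linarith
      · have e := (h.2 t ht).2 ho
        have e' := (h'.2 t ht).2 ho
        have j1 := one_div_le_one_div_of_le (h.1 (t - 1)) i1
        have j5 := one_div_le_one_div_of_le (h.1 (t - 5)) i5
        exact le_of_one_div_le_one_div (h'.1 t) (by rw [e, e']; linarith)

theorem rec_const {A : ℝ} (hA : 0 < A) : Rec 1 5 (fun _ => A) :=
  ⟨fun _ => hA, fun t _ => ⟨fun _ => by ring, fun _ => by ring⟩⟩

theorem rec_smul {w : ℕ → ℝ} (h : Rec 1 5 w) {c : ℝ} (hc : 0 < c) : Rec 1 5 (fun t => c * w t) := by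
  refine ⟨fun t => mul_pos hc (h.1 t), fun t ht => ⟨fun he => ?_, fun ho => ?_⟩⟩
  · have := (h.2 t ht).1 he
    simp only
    rw [this]
    ring
  · have := (h.2 t ht).2 ho
    have e : ∀ x : ℝ, 1 / (c * x) = 1 / c * (1 / x) := fun x => by
      rw [one_div, mul_inv, one_div, one_div]
    simp only [e]
    rw [this]
    ring

theorem rec_shift {w : ℕ → ℝ} (h : Rec 1 5 w) : Rec 1 5 (fun t => w (t + 2)) := by
  refine ⟨fun t => h.1 _, fun t ht => ?_⟩
  have h2 := h.2 (t + 2) (by omega)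
  have e1 : t + 2 - 1 = t - 1 + 2 := by omega
  have e5 : t + 2 - 5 = t - 5 + 2 := by omega
  rw [e1, e5] at h2
  exact ⟨fun he => h2.1 (by omega), fun ho => h2.2 (by omega)⟩

/-- the limit exists -/
theorem exists_lim (u : Fin 5 → ℝ) (hu : ∀ i, 0 < u i) : ∃ L : ℝ, 0 < L ∧ ∃ w : ℕ → ℝ,
    Rec 1 5 w ∧ (∀ i : Fin 5, w i = u i) ∧ Tendsto w atTop (𝓝 L) := by
  obtain ⟨w, L, h1, h2, h3, h4, -⟩ := MEM_.main (k := 0) (l := 4) (by norm_num) (by norm_num)
    (by norm_num) (by norm_num) (fun t => if h : t < 5 then u ⟨t, h⟩ else 1) (fun t => by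
      split_ifs with h
      · exact hu _
      · exact one_pos)
  refine ⟨L, h3, w, h1, fun i => ?_, h4⟩
  rw [h2 i i.2, dif_pos i.2]

/-- the limit is determined by the initial values -/
theorem uniq {w w' : ℕ → ℝ} {L L' : ℝ} (h : Rec 1 5 w) (h' : Rec 1 5 w')
    (h0 : ∀ i : Fin 5, w i = w' i) (hL : Tendsto w atTop (𝓝 L)) (hL' : Tendsto w' atTop (𝓝 L')) :
    L = L' := by
  have h1 : ∀ t, t < 5 → w t = w' t := fun t ht => h0 ⟨t, ht⟩
  have e : w = w' := by
    funext t
    exact le_antisymm (rec_le h h' (fun t ht => (h1 t ht).le) t)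
      (rec_le h' h (fun t ht => (h1 t ht).ge) t)
  rw [e] at hL
  exact tendsto_nhds_unique hL hL'

end EX_

open EX_ in
theorem t_EX : S_EX := by
  have hex : ∀ u : Fin 5 → ℝ, ∃ L : ℝ, (∀ i, 0 < u i) → 0 < L ∧ ∃ w : ℕ → ℝ,
      Rec 1 5 w ∧ (∀ i : Fin 5, w i = u i) ∧ Tendsto w atTop (𝓝 L) := by
    intro u
    by_cases hu : ∀ i, 0 < u i
    · obtain ⟨L, hL⟩ := exists_lim u hu
      exact ⟨L, fun _ => hL⟩
    · exact ⟨0, fun h => absurd h hu⟩
  choose M hM using hex
  refine ⟨M, ?_, ?_, ?_, ?_, ?_, ?_⟩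
  · intro u A hu hA
    obtain ⟨h0, w, hw, hi, hl⟩ := hM u hu
    rcases le_or_gt A 0 with h | h
    · exact h.trans h0.le
    · exact ge_of_tendsto' hl (rec_le (rec_const h) hw
        (fun t ht => by have := hi ⟨t, ht⟩; simp only at this; rw [this]; exact hA _))
  · intro u B hu hB
    obtain ⟨h0, w, hw, hi, hl⟩ := hM u hu
    have h : 0 < B := (hu 0).trans_le (hB 0)
    exact le_of_tendsto' hl (rec_le hw (rec_const h)
        (fun t ht => by have := hi ⟨t, ht⟩; simp only at this; rw [this]; exact hB _))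
  · intro u u' hu huu
    obtain ⟨-, w, hw, hi, hl⟩ := hM u hu
    obtain ⟨-, w', hw', hi', hl'⟩ := hM u' (fun i => (hu i).trans_le (huu i))
    refine le_of_tendsto_of_tendsto' hl hl' (rec_le hw hw' fun t ht => ?_)
    have e := hi ⟨t, ht⟩
    have e' := hi' ⟨t, ht⟩
    simp only at e e'
    rw [e, e']
    exact huu _
  · intro u c hu hc
    obtain ⟨-, w, hw, hi, hl⟩ := hM u hu
    obtain ⟨-, w', hw', hi', hl'⟩ := hM (fun i => c * u i) (fun i => mul_pos hc (hu i))
    exact uniq hw' (rec_smul hw hc) (fun i => by rw [hi' i]; change c * u i = c * w i; rw [hi i]) hl'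
      (hl.const_mul c)
  · intro u hu
    obtain ⟨-, w, hw, hi, hl⟩ := hM u hu
    have w0 : w 0 = u 0 := hi 0
    have w1 : w 1 = u 1 := hi 1
    have w2 : w 2 = u 2 := hi 2
    have w3 : w 3 = u 3 := hi 3
    have w4 : w 4 = u 4 := hi 4
    have w5 : w 5 = H (u 4) (u 0) := by
      have h := (hw.2 5 le_rfl).2 (by norm_num)
      have h' := hmean (hw.1 (5 - 1)) (hw.1 (5 - 5)) h
      rw [h']
      change H (w 4) (w 0) = _
      rw [w4, w0]
    have w6 : w 6 = (H (u 4) (u 0) + u 1) / 2 := by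
      have h := (hw.2 6 (by norm_num)).1 (by norm_num)
      rw [h]
      change (w 5 + w 1) / 2 = _
      rw [w5, w1]
    have hT : ∀ i : Fin 5, w (i + 2) = T u i := by
      intro i
      fin_cases i
      · exact w2
      · exact w3
      · exact w4
      · exact w5
      · exact w6
    obtain ⟨-, w', hw', hi', hl'⟩ := hM (T u) (fun i => by rw [← hT i]; exact hw.1 _)
    refine uniq hw' (rec_shift hw) (fun i => by rw [hi' i]; exact (hT i).symm) hl' ?_
    exact hl.comp (tendsto_add_atTop_nat 2)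
  · intro v hv
    obtain ⟨w, L, h1, h2, h3, h4, x, hx, hx2⟩ := MEM_.main (k := 0) (l := 4) (by norm_num)
      (by norm_num) (by norm_num) (by norm_num) v hv
    obtain ⟨-, w', hw', hi', hl'⟩ := hM (fun j : Fin 5 => v j) (fun j => hv j)
    have e : M (fun j : Fin 5 => v j) = L :=
      uniq hw' h1 (fun i => by rw [hi' i, h2 i i.2]) hl' h4
    rw [e]
    exact ⟨x, hx, hx2⟩

end Pool.Agent.N551.ZF
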