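import Mathlib
import Pool.Agent.N551.ZF.Stm

/-!
# Project ZF (helper551): leaf NC, by helper693
-/

set_option autoImplicit false

open Filter Topology Set

namespace Pool.Agent.N551.ZF

theorem t_NC : S_NC := by
  intro hC M hM Φ hΦ heq
  obtain ⟨c1, c2⟩ := hC M hM
  have e1 := (hΦ.err 13 (3 / 2) (by norm_num) (by norm_num)).1
  have e2 := (hΦ.err 13 (5 / 2) (by norm_num) (by norm_num)).2
  have a1 : (1.4564765 : ℝ) ≤ M (sh (4 ^ 13 * (3 / 2))) / 2 ^ 13 := by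
    rw [le_div_iff₀ (by norm_num)]
    exact c1
  have b1 : M (sh (4 ^ 13 * (5 / 2))) / 2 ^ 13 ≤ (1.880300 : ℝ) := by
    rw [div_le_iff₀ (by norm_num)]
    exact c2
  have h1 : (1.4564763 : ℝ) ≤ Φ (3 / 2) := by
    refine le_trans ?_ e1
    have k1 : (1.4564763 : ℝ) ≤ (1 - 7 / (4 ^ 13 * (3 / 2))) * 1.4564765 := by norm_num
    exact k1.trans (mul_le_mul_of_nonneg_left a1 (by norm_num))
  have h2 : Φ (5 / 2) ≤ (1.8803001 : ℝ) := by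
    refine e2.trans ?_
    have k1 : (1 + 7 / (4 ^ 13 * (5 / 2))) * 1.880300 ≤ (1.8803001 : ℝ) := by norm_num
    exact (mul_le_mul_of_nonneg_left b1 (by norm_num)).trans k1
  have p2 : 0 < Φ (5 / 2) := hΦ.pos _ (by norm_num)
  have q1 : (1.4564763 : ℝ) ^ 2 ≤ Φ (3 / 2) ^ 2 := pow_le_pow_left₀ (by norm_num) h1 2
  have q2 : Φ (5 / 2) ^ 2 ≤ (1.8803001 : ℝ) ^ 2 := pow_le_pow_left₀ p2.le h2 2
  have r : (1.8803001 : ℝ) ^ 2 / (5 / 2) < (1.4564763 : ℝ) ^ 2 / (3 / 2) := by norm_num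
  have s1 : (1.4564763 : ℝ) ^ 2 / (3 / 2) ≤ Φ (3 / 2) ^ 2 / (3 / 2) :=
    div_le_div_of_nonneg_right q1 (by norm_num)
  have s2 : Φ (5 / 2) ^ 2 / (5 / 2) ≤ (1.8803001 : ℝ) ^ 2 / (5 / 2) :=
    div_le_div_of_nonneg_right q2 (by norm_num)
  linarith

end Pool.Agent.N551.ZF
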