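import Mathlib
import Pool.Agent.N551.ZF.Stm

/-!
# Project ZF, PHI: the limit function (helper667)
-/

set_option autoImplicit false

open Filter Topology Set

namespace Pool.Agent.N551.ZF

namespace PHI_

variable {M : (Fin 5 → ℝ) → ℝ}

theorem sh_pos {h : ℝ} (hh : 0 < h) (i : Fin 5) : 0 < sh h i := by
  fin_cases i
  · show 0 < h; exact hh
  · show 0 < h; exact hh
  · show 0 < h / 2; linarith
  · show (0 : ℝ) < 2; norm_num
  · show (0 : ℝ) < 2; norm_num

theorem M_pos (hM : GoodM M) {h : ℝ} (hh : 0 < h) : 0 < M (sh h) := by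
  have h1 := hM.lowb (sh h) (min (h / 2) 2) (sh_pos hh) (by
    intro i
    fin_cases i
    · show min (h / 2) 2 ≤ h; exact (min_le_left _ _).trans (by linarith)
    · show min (h / 2) 2 ≤ h; exact (min_le_left _ _).trans (by linarith)
    · show min (h / 2) 2 ≤ h / 2; exact min_le_left _ _
    · show min (h / 2) 2 ≤ (2 : ℝ); exact min_le_right _ _
    · show min (h / 2) 2 ≤ (2 : ℝ); exact min_le_right _ _)
  exact lt_of_lt_of_le (lt_min (by linarith) (by norm_num)) h1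

theorem M_mono (hM : GoodM M) {x x' : ℝ} (hx : 0 < x) (h : x ≤ x') : M (sh x) ≤ M (sh x') := by
  refine hM.mono _ _ (sh_pos hx) ?_
  intro i
  fin_cases i
  · show x ≤ x'; exact h
  · show x ≤ x'; exact h
  · show x / 2 ≤ x' / 2; linarith
  · show (2 : ℝ) ≤ 2; exact le_rfl
  · show (2 : ℝ) ≤ 2; exact le_rfl

theorem M_scale (hM : GoodM M) {x x' : ℝ} (hx : 0 < x) (h : x ≤ x') :
    M (sh x') ≤ (x' / x) * M (sh x) := by
  have hx' : 0 < x' := hx.trans_le h
  rw [← hM.hom _ _ (sh_pos hx) (by positivity)]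
  refine hM.mono _ _ (sh_pos hx') ?_
  have h1 : 1 ≤ x' / x := (one_le_div hx).2 h
  intro i
  fin_cases i
  · show x' ≤ x' / x * x; rw [div_mul_cancel₀ _ hx.ne']
  · show x' ≤ x' / x * x; rw [div_mul_cancel₀ _ hx.ne']
  · show x' / 2 ≤ x' / x * (x / 2)
    rw [← mul_div_assoc, div_mul_cancel₀ _ hx.ne']
  · show (2 : ℝ) ≤ x' / x * 2; linarith
  · show (2 : ℝ) ≤ x' / x * 2; linarith

/-- the upper and lower step -/
theorem step (h1 : S_ASY1) (hM : GoodM M) {x : ℝ} (hx : 0 < x) (n : ℕ) (hn : 16 ≤ 4 ^ n * x) :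
    (1 + 7 / (4 ^ (n + 1) * x)) * (M (sh (4 ^ (n + 1) * x)) / 2 ^ (n + 1)) ≤
      (1 + 7 / (4 ^ n * x)) * (M (sh (4 ^ n * x)) / 2 ^ n) ∧
    (1 - 7 / (4 ^ n * x)) * (M (sh (4 ^ n * x)) / 2 ^ n) ≤
      (1 - 7 / (4 ^ (n + 1) * x)) * (M (sh (4 ^ (n + 1) * x)) / 2 ^ (n + 1)) := by
  set y : ℝ := 4 ^ n * x with hy
  have hy0 : 0 < y := by linarith
  have e1 : (4 : ℝ) ^ (n + 1) * x = 4 * y := by rw [hy]; ring
  rw [e1]
  obtain ⟨l1, u1⟩ := h1 M hM (4 * y) (by linarith)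
  have e2 : 4 * y / 4 = y := by ring
  rw [e2] at l1 u1
  set m : ℝ := M (sh y) with hm
  set m' : ℝ := M (sh (4 * y)) with hm'
  have hmp : 0 < m := M_pos hM hy0
  have h2n : (0 : ℝ) < 2 ^ n := by positivity
  set t : ℝ := 1 / y with ht
  have ht0 : 0 < t := by positivity
  have ht1 : t ≤ 1 / 16 := one_div_le_one_div_of_le (by norm_num) hn
  have f1 : 7 / (4 * y) = 7 / 4 * t := by rw [ht]; field_simp
  have f2 : 7 / y = 7 * t := by rw [ht]; field_simp
  have f3 : 10 / (4 * y) = 5 / 2 * t := by rw [ht]; field_simp; norm_num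
  rw [f1, f2]
  rw [f3] at l1 u1
  have e3 : ∀ z : ℝ, z / 2 ^ (n + 1) = z / 2 / 2 ^ n := by
    intro z
    rw [pow_succ, div_div, mul_comm]
  rw [e3]
  have e4 : ∀ c z : ℝ, c * (z / 2 ^ n) = c * z / 2 ^ n := fun c z => by ring
  constructor
  · rw [e4, e4]
    refine div_le_div_of_nonneg_right ?_ h2n.le
    have a1 : m' / 2 ≤ (1 + 5 / 2 * t) * m := by linarith
    have a2 : (1 + 7 / 4 * t) * (m' / 2) ≤ (1 + 7 / 4 * t) * ((1 + 5 / 2 * t) * m) :=
      mul_le_mul_of_nonneg_left a1 (by positivity)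
    refine a2.trans ?_
    rw [← mul_assoc]
    refine mul_le_mul_of_nonneg_right ?_ hmp.le
    nlinarith
  · rw [e4, e4]
    refine div_le_div_of_nonneg_right ?_ h2n.le
    have a1 : (1 - 5 / 2 * t) * m ≤ m' / 2 := by linarith
    have a2 : (1 - 7 / 4 * t) * ((1 - 5 / 2 * t) * m) ≤ (1 - 7 / 4 * t) * (m' / 2) :=
      mul_le_mul_of_nonneg_left a1 (by linarith)
    refine le_trans ?_ a2
    rw [← mul_assoc]
    refine mul_le_mul_of_nonneg_right ?_ hmp.le
    nlinarith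

theorem key (h1 : S_ASY1) (hM : GoodM M) {x : ℝ} (hx : 0 < x) : ∃ l : ℝ,
    Tendsto (fun s : ℕ => M (sh (4 ^ s * x)) / 2 ^ s) atTop (𝓝 l) ∧
    ∀ s : ℕ, 16 ≤ 4 ^ s * x →
      (1 - 7 / (4 ^ s * x)) * (M (sh (4 ^ s * x)) / 2 ^ s) ≤ l ∧
      l ≤ (1 + 7 / (4 ^ s * x)) * (M (sh (4 ^ s * x)) / 2 ^ s) := by
  set a : ℕ → ℝ := fun s => M (sh (4 ^ s * x)) / 2 ^ s with ha
  set y : ℕ → ℝ := fun s => 4 ^ s * x with hy
  have hy0 : ∀ n, 0 < y n := fun n => by positivity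
  have ha0 : ∀ n, 0 < a n := fun n => div_pos (M_pos hM (hy0 n)) (by positivity)
  have hmono : ∀ s n : ℕ, 16 ≤ y s → 16 ≤ y (n + s) := by
    intro s n h
    refine h.trans ?_
    show 4 ^ s * x ≤ 4 ^ (n + s) * x
    refine mul_le_mul_of_nonneg_right ?_ hx.le
    exact pow_le_pow_right₀ (by norm_num) (by omega)
  have hanti : ∀ s, 16 ≤ y s → Antitone fun n => (1 + 7 / y (n + s)) * a (n + s) := by
    intro s hs
    refine antitone_nat_of_succ_le fun n => ?_
    have := (step h1 hM hx (n + s) (hmono s n hs)).1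
    have e : n + 1 + s = n + s + 1 := by omega
    simp only [e]
    exact this
  have hmon : ∀ s, 16 ≤ y s → Monotone fun n => (1 - 7 / y (n + s)) * a (n + s) := by
    intro s hs
    refine monotone_nat_of_le_succ fun n => ?_
    have := (step h1 hM hx (n + s) (hmono s n hs)).2
    have e : n + 1 + s = n + s + 1 := by omega
    simp only [e]
    exact this
  obtain ⟨s₀, hs₀⟩ : ∃ s₀, 16 ≤ y s₀ := by
    obtain ⟨n, hn⟩ := pow_unbounded_of_one_lt (16 / x) (by norm_num : (1 : ℝ) < 4)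
    refine ⟨n, ?_⟩
    rw [div_lt_iff₀ hx] at hn
    exact hn.le
  have hyt : Tendsto y atTop atTop := by
    refine Tendsto.atTop_mul_const hx ?_
    exact tendsto_pow_atTop_atTop_of_one_lt (by norm_num)
  have h7 : Tendsto (fun n => 7 / y n) atTop (𝓝 0) := hyt.const_div_atTop 7
  have hp0 : ∀ n, 0 < 1 + 7 / y n := fun n => by have := hy0 n; positivity
  obtain ⟨l, hl⟩ : ∃ l, Tendsto (fun n => (1 + 7 / y (n + s₀)) * a (n + s₀)) atTop (𝓝 l) := by
    refine ⟨_, tendsto_atTop_ciInf (hanti s₀ hs₀) ⟨0, ?_⟩⟩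
    rintro _ ⟨n, rfl⟩
    exact (mul_pos (hp0 _) (ha0 _)).le
  have hl' : Tendsto (fun n => (1 + 7 / y n) * a n) atTop (𝓝 l) :=
    (tendsto_add_atTop_iff_nat s₀).1 hl
  have hlim : Tendsto a atTop (𝓝 l) := by
    have h2 : Tendsto (fun n => 1 + 7 / y n) atTop (𝓝 (1 + 0)) := h7.const_add 1
    have h3 := hl'.div h2 (by norm_num)
    rw [add_zero, div_one] at h3
    refine h3.congr fun n => ?_
    show (1 + 7 / y n) * a n / (1 + 7 / y n) = a n
    rw [mul_div_cancel_left₀ _ (hp0 n).ne']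
  have hq : Tendsto (fun n => (1 - 7 / y n) * a n) atTop (𝓝 l) := by
    have h2 : Tendsto (fun n => 1 - 7 / y n) atTop (𝓝 (1 - 0)) := h7.const_sub 1
    have h3 := h2.mul hlim
    rwa [sub_zero, one_mul] at h3
  refine ⟨l, hlim, fun s hs => ⟨?_, ?_⟩⟩
  · have h4 : Tendsto (fun n => (1 - 7 / y (n + s)) * a (n + s)) atTop (𝓝 l) :=
      (tendsto_add_atTop_iff_nat s).2 hq
    have h5 := (hmon s hs).ge_of_tendsto h4 0
    simpa using h5
  · have h4 : Tendsto (fun n => (1 + 7 / y (n + s)) * a (n + s)) atTop (𝓝 l) :=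
      (tendsto_add_atTop_iff_nat s).2 hl'
    have h5 := (hanti s hs).le_of_tendsto h4 0
    simpa using h5

end PHI_

open PHI_ in
/-- PHI -/
theorem t_PHI : S_PHI := by
  intro h1 M hM
  classical
  choose! Φ hΦ1 hΦ2 using fun (x : ℝ) (hx : 0 < x) => key h1 hM hx
  have hmono : ∀ x x' : ℝ, 0 < x → x ≤ x' → Φ x ≤ Φ x' := by
    intro x x' hx hxx
    refine le_of_tendsto_of_tendsto' (hΦ1 x hx) (hΦ1 x' (hx.trans_le hxx)) fun s => ?_
    refine div_le_div_of_nonneg_right (M_mono hM (by positivity) ?_) (by positivity)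
    exact mul_le_mul_of_nonneg_left hxx (by positivity)
  have hscale : ∀ x x' : ℝ, 0 < x → x ≤ x' → Φ x' ≤ x' / x * Φ x := by
    intro x x' hx hxx
    refine le_of_tendsto_of_tendsto' (hΦ1 x' (hx.trans_le hxx)) ((hΦ1 x hx).const_mul (x' / x))
      fun s => ?_
    rw [← mul_div_assoc]
    refine div_le_div_of_nonneg_right ?_ (by positivity)
    have h2 := M_scale hM (x := 4 ^ s * x) (x' := 4 ^ s * x') (by positivity)
      (mul_le_mul_of_nonneg_left hxx (by positivity))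
    rwa [mul_div_mul_left _ _ (by positivity : (4 : ℝ) ^ s ≠ 0)] at h2
  have hpos : ∀ x, 0 < x → 0 < Φ x := by
    intro x hx
    obtain ⟨n, hn⟩ := pow_unbounded_of_one_lt (16 / x) (by norm_num : (1 : ℝ) < 4)
    rw [div_lt_iff₀ hx] at hn
    refine lt_of_lt_of_le ?_ (hΦ2 x hx n hn.le).1
    have h3 : 7 / (4 ^ n * x) < 1 := by
      rw [div_lt_one (by positivity)]
      linarith
    exact mul_pos (by linarith) (div_pos (M_pos hM (by positivity)) (by positivity))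
  refine ⟨Φ, hpos, hΦ1, ?_, fun s x hx hs => hΦ2 x hx s hs⟩
  intro x₀ hx₀
  have hx0 : (0 : ℝ) < x₀ := hx₀
  refine ContinuousAt.continuousWithinAt ?_
  have c1 : Tendsto (fun x : ℝ => min 1 (x / x₀) * Φ x₀) (𝓝 x₀) (𝓝 (Φ x₀)) := by
    have : Continuous fun x : ℝ => min 1 (x / x₀) * Φ x₀ := by fun_prop
    have h2 := this.tendsto x₀
    simpa [div_self hx0.ne'] using h2
  have c2 : Tendsto (fun x : ℝ => max 1 (x / x₀) * Φ x₀) (𝓝 x₀) (𝓝 (Φ x₀)) := by
    have : Continuous fun x : ℝ => max 1 (x / x₀) * Φ x₀ := by fun_prop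
    have h2 := this.tendsto x₀
    simpa [div_self hx0.ne'] using h2
  have hΦ0 := hpos x₀ hx0
  refine tendsto_of_tendsto_of_tendsto_of_le_of_le' c1 c2 ?_ ?_
  · filter_upwards [lt_mem_nhds hx0] with x hx
    rcases le_total x₀ x with h | h
    · refine le_trans ?_ (hmono x₀ x hx0 h)
      have : min 1 (x / x₀) ≤ 1 := min_le_left _ _
      nlinarith
    · have h3 := hscale x x₀ hx h
      have h4 : x / x₀ * Φ x₀ ≤ Φ x := by
        rw [div_mul_eq_mul_div, div_le_iff₀ hx0]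
        rw [div_mul_eq_mul_div, le_div_iff₀ hx] at h3
        linarith
      exact (mul_le_mul_of_nonneg_right (min_le_right _ _) hΦ0.le).trans h4
  · filter_upwards [lt_mem_nhds hx0] with x hx
    rcases le_total x₀ x with h | h
    · exact (hscale x₀ x hx0 h).trans (mul_le_mul_of_nonneg_right (le_max_right _ _) hΦ0.le)
    · refine (hmono x x₀ hx h).trans ?_
      have : (1 : ℝ) ≤ max 1 (x / x₀) := le_max_left _ _
      nlinarith

end Pool.Agent.N551.ZF
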