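import Mathlib
import Pool.Agent.N551.ZE.Main
import Pool.Agent.N551.ZF.Stm
import Pool.Agent.N551.ZF.EX
import Pool.Agent.N551.ZF.ASY1
import Pool.Agent.N551.ZF.ASY2
import Pool.Agent.N551.ZF.PHI
import Pool.Agent.N551.ZF.CERT
import Pool.Agent.N551.ZF.NC
import Pool.Agent.N551.ZF.ALG

/-!
# Project ZF: assembly
-/

namespace Pool.Agent.N551.ZF

theorem all : S_ALL :=
  final t_EX t_ASY1 t_ASY2 t_PHI t_CERT t_NC t_ALG ZE.t_LAUR ZE.res ZE.t_PRODG ZE.t_SEMI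

end Pool.Agent.N551.ZF
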